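import Pool.Agent.Helper72.Pent.TilingI
import Pool.Agent.Helper72.Pent.Disk
import Pool.Agent.Helper72.Pent.Poly
import Pool.Agent.Helper72.Pent.NoProper

namespace Pool.Agent.Results.MP_3557fd_co.PentagonExists

open Pool.Agent.Helper72.Pent

/-- There is a pentagon which admits a proper monohedral tiling and an isohedral tiling, but all of
whose isohedral tilings are improper. -/
theorem result : ∃ (v : Fin 5 → ℂ) (P : Set ℂ), IsPolygon v P ∧
    (∃ 𝒯 : Set (Set ℂ), IsTiling P 𝒯 ∧ IsProper v P 𝒯) ∧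
    (∃ 𝒯 : Set (Set ℂ), IsTiling P 𝒯 ∧ IsIsohedral 𝒯) ∧
    ∀ 𝒯 : Set (Set ℂ), IsTiling P 𝒯 → IsIsohedral 𝒯 → ¬ IsProper v P 𝒯 :=
  ⟨v, P, polygon_P, tiling1 P_disk, tiling2 P_disk, no_proper_isohedral⟩

end Pool.Agent.Results.MP_3557fd_co.PentagonExists
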